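import Mathlib

/-!
# `125 < 4 π² e^{2γ} < 126` (helper88, MP_92892c_nt)
-/

set_option autoImplicit false

namespace LAF

/-- `Σ_{i < n} ⌊10^8/(i+1)⌋`. -/
def hF : ℕ → ℕ
  | 0 => 0
  | (n + 1) => hF n + 100000000 / (n + 1)

theorem hF_bd (n : ℕ) : (hF n : ℝ) / 100000000 ≤ (harmonic n : ℝ) ∧
    (harmonic n : ℝ) ≤ ((hF n : ℝ) + n) / 100000000 := by
  induction n with
  | zero => simp [hF]
  | succ n ih =>
    have h1 : ((harmonic (n + 1) : ℚ) : ℝ) = (harmonic n : ℝ) + ((n : ℝ) + 1)⁻¹ := by
      rw [harmonic_succ]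
      push_cast
      rfl
    have h2 : (hF (n + 1) : ℝ) = hF n + ((100000000 / (n + 1) : ℕ) : ℝ) := by
      show (((hF n + 100000000 / (n + 1) : ℕ)) : ℝ) = _
      push_cast
      rfl
    have hn : (0 : ℝ) < (n : ℝ) + 1 := by positivity
    have h3 : ((100000000 / (n + 1) : ℕ) : ℝ) ≤ 100000000 * ((n : ℝ) + 1)⁻¹ := by
      have h4 := Nat.div_mul_le_self 100000000 (n + 1)
      have h5 : ((100000000 / (n + 1) : ℕ) : ℝ) * ((n : ℝ) + 1) ≤ 100000000 := by exact_mod_cast h4
      rw [← div_eq_mul_inv, le_div_iff₀ hn]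
      exact h5
    have h6 : 100000000 * ((n : ℝ) + 1)⁻¹ ≤ ((100000000 / (n + 1) : ℕ) : ℝ) + 1 := by
      have h4 := Nat.lt_div_mul_add (a := 100000000) (Nat.succ_pos n)
      have h5 : (100000000 : ℝ) ≤ (((100000000 / (n + 1) : ℕ) : ℝ) + 1) * ((n : ℝ) + 1) := by
        have h7 : (100000000 : ℝ) < ((100000000 / (n + 1) : ℕ) : ℝ) * ((n : ℝ) + 1) + ((n : ℝ) + 1) := by
          exact_mod_cast h4
        linarith
      rw [← div_eq_mul_inv, div_le_iff₀ hn]
      exact h5
    rw [h1, h2]
    push_cast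
    constructor
    · linarith [ih.1]
    · linarith [ih.2]

theorem hF_val : hF 1023 = 750819426 := by decide +kernel

theorem hF_val' : hF 1024 = 750917082 := by decide +kernel

theorem gamma_lower : (0.57672 : ℝ) < Real.eulerMascheroniConstant := by
  have h1 := Real.eulerMascheroniSeq_lt_eulerMascheroniConstant 1023
  unfold Real.eulerMascheroniSeq at h1
  have h2 := (hF_bd 1023).1
  rw [hF_val] at h2
  have h3 : Real.log ((1023 : ℕ) + 1) = 10 * Real.log 2 := by
    rw [show ((1023 : ℕ) : ℝ) + 1 = 2 ^ 10 by norm_num, Real.log_pow]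
    norm_num
  rw [h3] at h1
  have h4 := Real.log_two_lt_d9
  rw [Nat.cast_ofNat] at h2
  generalize (harmonic 1023 : ℝ) = H at h1 h2
  linarith

theorem gamma_upper : Real.eulerMascheroniConstant < 0.57771 := by
  have h1 := Real.eulerMascheroniConstant_lt_eulerMascheroniSeq' 1024
  unfold Real.eulerMascheroniSeq' at h1
  rw [if_neg (by norm_num)] at h1
  have h2 := (hF_bd 1024).2
  rw [hF_val'] at h2
  have h3 : Real.log (1024 : ℕ) = 10 * Real.log 2 := by
    rw [show ((1024 : ℕ) : ℝ) = 2 ^ 10 by norm_num, Real.log_pow]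
    norm_num
  rw [h3] at h1
  have h4 := Real.log_two_gt_d9
  rw [Nat.cast_ofNat] at h2
  generalize (harmonic 1024 : ℝ) = H at h1 h2
  have h5 : ((1024 : ℕ) : ℝ) = 1024 := by norm_num
  rw [h5] at h2
  linarith

theorem exp_gamma_lower : (1.7801 : ℝ) < Real.exp Real.eulerMascheroniConstant := by
  have h1 : Real.exp 0.57672 < Real.exp Real.eulerMascheroniConstant := Real.exp_lt_exp.2 gamma_lower
  have h2 := Real.sum_le_exp_of_nonneg (x := 0.57672) (by norm_num) 8
  refine lt_of_lt_of_le ?_ (h2.trans h1.le)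
  simp only [Finset.sum_range_succ, Finset.sum_range_zero, Nat.factorial]
  norm_num

theorem exp_gamma_upper : Real.exp Real.eulerMascheroniConstant < (1.7821 : ℝ) := by
  have h1 : Real.exp Real.eulerMascheroniConstant < Real.exp 0.57771 := Real.exp_lt_exp.2 gamma_upper
  have h2 := Real.exp_bound' (x := 0.57771) (by norm_num) (by norm_num) (n := 8) (by norm_num)
  refine h1.trans_le (h2.trans ?_)
  simp only [Finset.sum_range_succ, Finset.sum_range_zero, Nat.factorial]
  norm_num

/-- The logarithmic derivative at `1` of an `L`-function with sign `1` and conductor `N` is not `0`. -/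
theorem gamma_cond (N : ℕ) (hN : 0 < N) :
    Real.eulerMascheroniConstant - Real.log (Real.sqrt N / (2 * Real.pi)) ≠ 0 := by
  intro h
  have hN0 : (0 : ℝ) < N := by exact_mod_cast hN
  have hpi := Real.pi_pos
  have h1 : Real.log (Real.sqrt N / (2 * Real.pi)) = Real.eulerMascheroniConstant := by linarith
  have h2 : Real.sqrt N / (2 * Real.pi) = Real.exp Real.eulerMascheroniConstant := by
    rw [← h1, Real.exp_log (div_pos (Real.sqrt_pos.2 hN0) (by positivity))]
  have h3 : (N : ℝ) = (2 * Real.pi * Real.exp Real.eulerMascheroniConstant) ^ 2 := by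
    rw [← h2, mul_div_cancel₀ _ (by positivity : (2 * Real.pi) ≠ 0), Real.sq_sqrt hN0.le]
  have h4 := exp_gamma_lower
  have h5 := exp_gamma_upper
  have h6 := Real.pi_gt_d6
  have h7 := Real.pi_lt_d6
  have h8 : (125 : ℝ) < N := by
    rw [h3]
    have h9 : (2 * 3.141592 * 1.7801 : ℝ) < 2 * Real.pi * Real.exp Real.eulerMascheroniConstant := by
      refine mul_lt_mul'' (by linarith) h4 (by norm_num) (by norm_num)
    calc (125 : ℝ) < (2 * 3.141592 * 1.7801) ^ 2 := by norm_num
      _ < _ := pow_lt_pow_left₀ h9 (by norm_num) two_ne_zero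
  have h10 : (N : ℝ) < 126 := by
    rw [h3]
    have h9 : 2 * Real.pi * Real.exp Real.eulerMascheroniConstant < (2 * 3.141593 * 1.7821 : ℝ) := by
      refine mul_lt_mul'' (by linarith) h5 (by positivity) (by positivity)
    calc _ < (2 * 3.141593 * 1.7821 : ℝ) ^ 2 := pow_lt_pow_left₀ h9 (by positivity) two_ne_zero
      _ < 126 := by norm_num
  have h11 : 125 < N := by exact_mod_cast h8
  have h12 : N < 126 := by exact_mod_cast h10
  omega

end LAF
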